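import Pool.Agent.Lib.MP_7cdc3e_gt.A2.All

/-!
# MP_7cdc3e_gt: regularity near one exposed point suffices

A topological immersion of real projective three-space in `E^N`, `N ≥ 9`, which is tight (in degrees
`0` and `1`, any field) and substantial and which is an immersion of class `C^{1,1}` near one point at
which some height function has a strict local maximum is, after a homeomorphism, the Veronese
embedding followed by a projective transformation; in particular it is not nonsmooth, and `N = 9`.
Instead of `C^{1,1}` near a point it is enough that there are three points with a second order Peano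
expansion and a nondegenerate extremum, such that a supporting hyperplane of the image contains the
images of two of them and not the image of the third.

Definitions (in `Pool/Agent/Lib/MP_7cdc3e_gt/Defs.lean`, `A/Spec.lean`, `A/FinB.lean`,
`A2/Spec.lean`):
* `RP3`: the unit sphere of `ℝ⁴` modulo `x ~ -x`, quotient topology;
* `LocInj f`: every point has a neighbourhood on which `f` is injective;
* `Substantial f`: the image of `f` lies in no affine hyperplane;
* `TightUpTo k F f`: `H_n(f⁻¹(h); F) → H_n(M; F)` is injective for all open half-spaces `h` and all
  `n ≤ k`; `halfIncl` is the inclusion of `f⁻¹(h)`; `SH`, `SHmap`: Mathlib's singular homology;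
* `StrictC11 f`: in some chart (a homeomorphism of open sets) `f` is differentiable with Lipschitz
  derivative, at a point of the chart the derivative is injective and some linear function of `f`
  has a strict local maximum; `E3`: Euclidean three-space;
* `PeanoPt f a`: in some chart `g` with `g 0 = a`, `f(g y) = f a + A y + ∑ y_i y_j B_ij + o(|y|²)` and
  some linear `l` satisfies `l ∘ A = 0`, `∑ y_i y_j l(B_ij) > 0` for `y ≠ 0`;
* `ThreePeano f`: three such points `a ≠ b`, `c` and a supporting hyperplane of the image through
  `f a`, `f b` and not through `f c`;
* `qf`, `PD`: the quadratic form of a matrix, positive definite symmetric matrices;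
* `SmImm f φ`: the lift `liftS3 f φ` of `f ∘ φ` to the sphere `S3` is `C^∞` (`SmoothS3`) with injective
  differentials (`ImmS3`, `DerS3`; `MC n`: the model of manifolds without boundary);
* `Veronese f φ`: `f(φ[v])_i = c_i(v) / k(v)` with quadratic forms, `k` positive definite and
  `k, c_1, ..., c_N` linearly independent.
-/

open TightRP TightRP.Ver

namespace Pool.Agent.Results.MP_7cdc3e_gt.DefinitePoint

theorem result : ∀ (F : Type) [Field F] (N : ℕ), 9 ≤ N →
    ∀ f : RP3 → EuclideanSpace ℝ (Fin N), Continuous f → LocInj f → Substantial f →
      TightUpTo 1 F f → (StrictC11 f ∨ ThreePeano f) →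
      N = 9 ∧ ∃ φ : RP3 ≃ₜ RP3, SmImm f φ ∧ Veronese f φ :=
  finalC

end Pool.Agent.Results.MP_7cdc3e_gt.DefinitePoint
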