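import Pool.Agent.Lib.MP_7cdc3e_gt.Fin
import Pool.Agent.Lib.MP_7cdc3e_gt.Contr
import Pool.Agent.Lib.MP_7cdc3e_gt.H0Path
import Pool.Agent.Lib.MP_7cdc3e_gt.H0Low
import Pool.Agent.Lib.MP_7cdc3e_gt.MVKey
import Pool.Agent.Lib.MP_7cdc3e_gt.Mono
import Pool.Agent.Lib.MP_7cdc3e_gt.MVUp
import Pool.Agent.Lib.MP_7cdc3e_gt.Homeo
import Pool.Agent.Lib.MP_7cdc3e_gt.StarContr
import Pool.Agent.Lib.MP_7cdc3e_gt.StarInj
import Pool.Agent.Lib.MP_7cdc3e_gt.SplitStar
import Pool.Agent.Lib.MP_7cdc3e_gt.StarConn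
import Pool.Agent.Lib.MP_7cdc3e_gt.Vertex
import Pool.Agent.Lib.MP_7cdc3e_gt.Imm
import Pool.Agent.Lib.MP_7cdc3e_gt.Facet
import Pool.Agent.Lib.MP_7cdc3e_gt.FlagLin
import Pool.Agent.Lib.MP_7cdc3e_gt.Flag
import Pool.Agent.Lib.MP_7cdc3e_gt.Susp
import Pool.Agent.Lib.MP_7cdc3e_gt.Circle
import Pool.Agent.Lib.MP_7cdc3e_gt.P3
import Pool.Agent.Lib.MP_7cdc3e_gt.LocHom
import Pool.Agent.Lib.MP_7cdc3e_gt.Tri
import Pool.Agent.Lib.MP_7cdc3e_gt.Small
import Pool.Agent.Lib.MP_7cdc3e_gt.Cyc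
import Pool.Agent.Lib.MP_7cdc3e_gt.Del
import Pool.Agent.Lib.MP_7cdc3e_gt.MacLane
import Pool.Agent.Lib.MP_7cdc3e_gt.Planar
import Pool.Agent.Lib.MP_7cdc3e_gt.LinkPlanar
import Pool.Agent.Lib.MP_7cdc3e_gt.LemA
import Pool.Agent.Lib.MP_7cdc3e_gt.LemB
import Pool.Agent.Lib.MP_7cdc3e_gt.Main
import Pool.Agent.Lib.MP_7cdc3e_gt.RPTop
import Pool.Agent.Lib.MP_7cdc3e_gt.RPHom

/-!
# MP_7cdc3e_gt: no polyhedral immersion of real projective three-space in `E^N`, `N ≥ 9`, is tight

The named candidates for Q1, polyhedral immersions, do not exist: for every field `F` and `N ≥ 9`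
there is no substantial polyhedral immersion `f : RP^3 → E^N` such that
`H_i(f⁻¹(h); F) → H_i(RP^3; F)` is injective for every open half-space `h` and `i = 0, 1`.

Definitions (in `Pool/Agent/Lib/MP_7cdc3e_gt/Defs.lean`):
* `RP3`: the unit sphere of `ℝ⁴` modulo `x ~ -x`, quotient topology;
* `LocInj f`: every point has a neighbourhood on which `f` is injective;
* `Cx ι`, `Cx.real`: finite simplicial complexes with vertex set `ι` and all simplices of dimension
  at most three, and their geometric realization in barycentric coordinates;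
* `Polyhedral f`: `f` is simplexwise linear on a triangulation of its domain by such a complex;
* `Substantial f`: the image of `f` lies in no affine hyperplane;
* `TightUpTo k F f`: `H_n(f⁻¹(h); F) → H_n(M; F)` is injective for all open half-spaces `h` and all
  `n ≤ k`; `halfIncl` is the inclusion of `f⁻¹(h)`;
* `SHmap F n g`: the map induced by `g` on Mathlib's singular homology `SH F n X = H_n(X; F)`.
-/

open TightRP

namespace Pool.Agent.Results.MP_7cdc3e_gt.Polyhedral

theorem result : ∀ (F : Type) [Field F] (N : ℕ), 9 ≤ N →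
    ¬ ∃ f : RP3 → EuclideanSpace ℝ (Fin N),
      LocInj f ∧ TightRP.Polyhedral f ∧ Substantial f ∧ TightUpTo 1 F f := by
  have hCircle : CircleStmt := mCircle tContr tH0Path tH0Low
  have hLoc : LocHomStmt := mLocHom tContr (mP3 (mSusp tContr tH0Path) hCircle)
  have hTri : TriStmt := mTri tContr tHomeo hCircle hLoc
  have hCyc : CycStmt := mCyc cStarContr hLoc mSmall
  have hLP : LinkPlanarStmt := pLinkPlanar hTri hCyc (pPlanar pDel pMacLane)
  have hSC : StarConnStmt := cStarConn tH0Path tH0Low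
  have hV : VertexStmt := cVertex (tMVKey tContr tH0Path tH0Low) cStarContr cSplitStar hSC
  have hMain : MainStmt :=
    mMain (fFlag (fFlagLin fFacet)) iEdge iDir cStarInj hSC hV tMono hLP pLemA pLemB
  exact fin_final hMain tHomeo rTop (rHom tContr tH0Path (tMVUp tContr tH0Path) tHomeo)

end Pool.Agent.Results.MP_7cdc3e_gt.Polyhedral
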