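import Pool.Agent.Lib.MP_7cdc3e_gt.C.FinAll

/-!
# MP_7cdc3e_gt: every tight substantial topological immersion of `ℝP³` into `E⁹` is smooth

Let `F` be a field and `f` a topological immersion of real projective three-space in `E⁹` which is
tight with respect to `F` (in the degrees `0`, `1`, `2`) and substantial. Then for some homeomorphism
`φ` of `ℝP³` the map `f ∘ φ` is a smooth immersion; in fact `f ∘ φ` is the Veronese embedding followed
by a projective transformation. So the answer to Q1 is no, for every field.

Definitions (in `Pool/Agent/Lib/MP_7cdc3e_gt/Defs.lean`, `A/Spec.lean`, `A/FinB.lean`):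
* `RP3`: the unit sphere of `ℝ⁴` modulo `x ~ -x` (`antipodal`), with the quotient topology;
* `LocInj f`: every point has a neighbourhood on which `f` is injective;
* `Substantial f`: the image of `f` lies in no affine hyperplane;
* `TightUpTo k F f`: `H_n(f⁻¹(h); F) → H_n(M; F)` is injective for all open half-spaces `h` and all
  `n ≤ k`; `halfIncl` is the inclusion of `f⁻¹(h)`; `SH`, `SHmap`: Mathlib's singular homology;
* `SmImm f φ`: the lift `liftS3 f φ` of `f ∘ φ` to the unit sphere `S3` of `ℝ⁴` is `C^∞`
  (`SmoothS3`) with injective differentials (`ImmS3`, `DerS3`; `MC n`: the model of manifolds without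
  boundary); as `S3 → RP3` is a local diffeomorphism this says that `f ∘ φ` is a smooth immersion;
* `qf`, `PD`: the quadratic form of a matrix, positive definite symmetric matrices;
* `Veronese f φ`: `f(φ[v])_i = c_i(v) / k(v)` with quadratic forms, `k` positive definite and
  `k, c_1, ..., c_9` linearly independent.
-/

open TightRP TightRP.Ver

namespace Pool.Agent.Results.MP_7cdc3e_gt.TightVeronese

theorem result : ∀ (F : Type) [Field F] (f : RP3 → EuclideanSpace ℝ (Fin 9)), Continuous f →
    LocInj f → Substantial f → TightUpTo 2 F f →
      ∃ φ : RP3 ≃ₜ RP3, SmImm f φ ∧ Veronese f φ :=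
  C3.mainN

end Pool.Agent.Results.MP_7cdc3e_gt.TightVeronese
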